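import Pool.Agent.Q254.Gonal.Example

/-!
# Same gonality, different second gonality, for a graph and its metric graph

`G.dgon r` is the `r`-th divisorial gonality of the multigraph `G` and `G.mdgon r` is the `r`-th
divisorial gonality of its metric graph with unit edge lengths; the definitions are in
`Pool.Agent.Q254.Gonal.Metric` (and `Pool.Agent.Q254.Gonal.PL` for piecewise linear functions).
-/

set_option autoImplicit false

namespace Pool.Agent.Results.MP_7c139f_co.SecondGonality

open Pool.Agent.Q254.Gonal

/-- There is a finite connected loopless multigraph `G` with `dgon(Γ(G)) = dgon(G)` and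
`dgon_2(Γ(G)) < dgon_2(G)`. -/
theorem result : ∃ (V E : Type) (_ : Fintype V) (_ : Fintype E) (_ : DecidableEq V)
    (G : MGraph V E), G.Connected ∧ G.mdgon 1 = G.dgon 1 ∧ G.mdgon 2 < G.dgon 2 :=
  ⟨_, _, inferInstance, inferInstance, inferInstance, Example.G, Example.connected,
    Example.mdgon_one.trans Example.dgon_one.symm,
    lt_of_le_of_lt Example.mdgon_two_le (Nat.lt_of_succ_le Example.lt_dgon_two)⟩

end Pool.Agent.Results.MP_7c139f_co.SecondGonality
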